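import Pool.Agent.X198.PR.Omega

open Set Filter Topology Ordinal

namespace X198SK

open X198PR

universe u

/-- The points of `A` that are not isolated in `A`. -/
def der {X : Type u} [TopologicalSpace X] (A : Set X) : Set X :=
  {x | x ∈ A ∧ ∀ O : Set X, IsOpen O → x ∈ O → ∃ y, y ∈ O ∧ y ∈ A ∧ y ≠ x}

/-- The Cantor-Bendixson derivatives `X^(α)`: the points that are not isolated in `X^(β)` for any
`β < α`.  See `cb_zero`, `cb_succ` and `cb_limit` for the usual recursion. -/
noncomputable def cb (X : Type u) [TopologicalSpace X] (α : Ordinal.{u}) : Set X :=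
  {x | ∀ β : Ordinal.{u}, β < α → x ∈ der (cb X β)}
termination_by α

theorem cb_def (X : Type u) [TopologicalSpace X] (α : Ordinal.{u}) :
    cb X α = {x | ∀ β : Ordinal.{u}, β < α → x ∈ der (cb X β)} := by
  rw [cb]

theorem cb_zero (X : Type u) [TopologicalSpace X] : cb X 0 = Set.univ := by
  rw [cb_def]
  ext x
  refine ⟨fun _ => mem_univ x, fun _ => ?_⟩
  intro β hβ
  exact absurd hβ (not_lt_of_ge bot_le)

theorem cb_anti {X : Type u} [TopologicalSpace X] {α β : Ordinal.{u}} (h : β ≤ α) :
    cb X α ⊆ cb X β := by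
  intro x hx
  rcases eq_or_lt_of_le h with h | h
  · rw [h]
    exact hx
  · rw [cb_def] at hx
    exact (hx β h).1

theorem cb_succ (X : Type u) [TopologicalSpace X] (α : Ordinal.{u}) :
    cb X (Order.succ α) = der (cb X α) := by
  ext x
  rw [cb_def]
  constructor
  · intro hx
    exact hx α (Order.lt_succ α)
  · intro hx β hβ
    rcases eq_or_lt_of_le (Order.le_of_lt_succ hβ) with h | h
    · rw [h]
      exact hx
    · have h1 := hx.1
      rw [cb_def] at h1
      exact h1 β h

theorem cb_limit (X : Type u) [TopologicalSpace X] (α : Ordinal.{u}) (hα : Order.IsSuccLimit α) :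
    cb X α = ⋂ β ∈ Iio α, cb X β := by
  ext x
  simp only [mem_iInter, mem_Iio]
  constructor
  · intro hx β hβ
    exact cb_anti hβ.le hx
  · intro hx
    rw [cb_def]
    intro β hβ
    rw [← cb_succ]
    exact hx _ (hα.succ_lt hβ)

theorem der_closed {X : Type u} [TopologicalSpace X] {A : Set X} (hA : IsClosed A) :
    IsClosed (der A) := by
  rw [← isOpen_compl_iff, isOpen_iff_forall_mem_open]
  intro x hx
  by_cases hxA : x ∈ A
  · have h1 : ∃ O : Set X, IsOpen O ∧ x ∈ O ∧ ∀ y, y ∈ O → y ∈ A → y = x := by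
      by_contra hcon
      push Not at hcon
      exact hx ⟨hxA, fun O hO hxO => hcon O hO hxO⟩
    obtain ⟨O, hO, hxO, h2⟩ := h1
    refine ⟨O, ?_, hO, hxO⟩
    intro y hy hyd
    have := h2 y hy hyd.1
    rw [this] at hyd
    exact hx hyd
  · exact ⟨Aᶜ, fun y hy hyd => hy hyd.1, hA.isOpen_compl, hxA⟩

theorem cb_closed (X : Type u) [TopologicalSpace X] (α : Ordinal.{u}) : IsClosed (cb X α) := by
  induction α using WellFoundedLT.induction with
  | _ α ih =>
    have : cb X α = ⋂ β ∈ Iio α, der (cb X β) := by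
      rw [cb_def]
      ext x
      simp
    rw [this]
    exact isClosed_biInter fun β hβ => der_closed (ih β hβ)

/-- `U` is a canonical clopen selector of `X`: the sets `U x` are clopen, `x ∈ U x`, for distinct
`x, y` either `x ∉ U y` or `y ∉ U x`, `y ∈ U x` implies `U y ⊆ U x`, and each `x` has a height
`α` (`x ∈ X^(α) \ X^(α+1)`) and is the only point of `U x` in `X^(α)`. -/
def IsCanonicalSelector {X : Type u} [TopologicalSpace X] (U : X → Set X) : Prop :=
  (∀ x, IsClopen (U x)) ∧ (∀ x, x ∈ U x) ∧ (∀ x y, x ≠ y → x ∉ U y ∨ y ∉ U x) ∧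
    (∀ x y, y ∈ U x → U y ⊆ U x) ∧
    ∀ x, ∃ α : Ordinal.{u}, x ∈ cb X α ∧ x ∉ cb X (Order.succ α) ∧ ∀ y ∈ U x, y ∈ cb X α → y = x

/-- The space of final subsets of `P`, as a subspace of `2^P` (`Bool` discrete). -/
def FS (P : Type u) [PartialOrder P] : Type u :=
  {F : P → Bool // ∀ x y, x ≤ y → F x = true → F y = true}

instance (P : Type u) [PartialOrder P] : TopologicalSpace (FS P) :=
  inferInstanceAs (TopologicalSpace {F : P → Bool // ∀ x y, x ≤ y → F x = true → F y = true})

/-- Every antichain is finite. -/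
def Narrow (P : Type u) [PartialOrder P] : Prop := ∀ A : Set P, IsAntichain (· ≤ ·) A → A.Finite

/-- `P` contains no copy of the rationals. -/
def OrderScattered (P : Type u) [PartialOrder P] : Prop := IsEmpty (ℚ ↪o P)

/-- The disjoint union of four copies of `Ω`, elements of different copies incomparable. -/
structure Pt (Ω : Type u) where
  idx : Fin 4
  val : Ω

instance {Ω : Type u} [LinearOrder Ω] : PartialOrder (Pt Ω) where
  le p q := p.idx = q.idx ∧ p.val ≤ q.val
  le_refl p := ⟨rfl, le_refl _⟩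
  le_trans p q r h1 h2 := ⟨h1.1.trans h2.1, h1.2.trans h2.2⟩
  le_antisymm p q h1 h2 := by
    cases p
    cases q
    simp only [Pt.mk.injEq]
    exact ⟨h1.1, le_antisymm h1.2 h2.2⟩

variable {Ω : Type u} [LinearOrder Ω]

theorem pt_narrow : Narrow (Pt Ω) := by
  intro A hA
  have hinj : InjOn Pt.idx A := by
    intro p hp q hq hpq
    by_contra hne
    rcases le_total p.val q.val with h | h
    · exact hA hp hq hne ⟨hpq, h⟩
    · exact hA hq hp (Ne.symm hne) ⟨hpq.symm, h⟩
  exact Set.Finite.of_finite_image (Set.toFinite _) hinj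

theorem pt_scattered [WellFoundedLT Ω] : OrderScattered (Pt Ω) := by
  refine ⟨fun f => ?_⟩
  have hidx : ∀ q : ℚ, (f q).idx = (f 0).idx := by
    intro q
    rcases le_total q 0 with h | h
    · exact (f.le_iff_le.2 h).1
    · exact (f.le_iff_le.2 h).1.symm
  have hmono : ∀ q r : ℚ, q < r → (f q).val < (f r).val := by
    intro q r h
    have h1 := f.lt_iff_lt.2 h
    refine lt_of_le_of_ne h1.le.2 (fun he => h1.ne ?_)
    have h2 : (f q).idx = (f r).idx := h1.le.1
    cases hq : f q
    cases hr : f r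
    rw [hq, hr] at he h2
    simp only [Pt.mk.injEq]
    exact ⟨h2, he⟩
  have hne : (range fun n : ℕ => (f (-(n : ℚ))).val).Nonempty := ⟨_, 0, rfl⟩
  obtain ⟨n, hn⟩ := wellFounded_lt.min_mem _ hne
  have h1 := hmono (-((n + 1 : ℕ) : ℚ)) (-(n : ℚ)) (by push_cast; linarith)
  simp only at hn
  rw [hn] at h1
  exact absurd h1 (not_lt_of_ge (wellFounded_lt.min_le
    (show (f (-((n + 1 : ℕ) : ℚ))).val ∈ range fun n : ℕ => (f (-(n : ℚ))).val from
      ⟨n + 1, rfl⟩)))

end X198SK
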