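import Pool.Agent.X198.SK.Main

open Set Filter Topology

namespace X198SK

open X198PR

universe u

variable {Ω : Type u} [LinearOrder Ω] [WellFoundedLT Ω]

theorem lim_sup (x : ℕ → Ω) {δ : Ω} (h1 : ∀ n, x n < δ)
    (h2 : ∀ b < δ, ∃ n, b < x n) : Lim (univ : Set Ω) δ := by
  refine ⟨⟨x 0, h1 0⟩, fun b hb => ?_⟩
  obtain ⟨n, hn⟩ := h2 b hb
  exact ⟨x n, mem_univ _, hn, h1 n⟩

theorem press_omega (hunc : ¬ (univ : Set Ω).Countable) (hctb : ∀ a : Ω, (Iic a).Countable)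
    (f : Ω → Ω) (hf : ∀ b, Lim (univ : Set Ω) b → f b < b) :
    ∃ γ, ∀ c, ∃ b, c < b ∧ Lim (univ : Set Ω) b ∧ f b = γ := by
  by_contra hcon
  push Not at hcon
  choose h hh using hcon
  have hstep : ∀ x : Ω, ∃ y, x < y ∧ ∀ γ ≤ x, h γ < y := by
    intro x
    obtain ⟨y, hy⟩ := bdd hunc hctb (A := insert x (h '' Iic x))
      (((hctb x).image h).insert x)
    exact ⟨y, hy x (mem_insert _ _), fun γ hγ =>
      hy _ (mem_insert_of_mem _ (mem_image_of_mem h hγ))⟩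
  choose s hs hs' using hstep
  have hne : Nonempty Ω := by
    by_contra h
    rw [not_nonempty_iff] at h
    exact hunc (Set.to_countable _)
  obtain ⟨a⟩ := hne
  let x : ℕ → Ω := fun n => Nat.rec a (fun _ y => s y) n
  have hmono : StrictMono x := strictMono_nat_of_lt_succ fun n => hs _
  obtain ⟨δ, hδ, hδ'⟩ := exists_sup hunc hctb x hmono
  have hlim := lim_sup x hδ hδ'
  obtain ⟨n, hn⟩ := hδ' (f δ) (hf δ hlim)
  have h1 : h (f δ) < x (n + 1) := hs' (x n) (f δ) hn.le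
  exact hh (f δ) δ (h1.trans (hδ (n + 1))) hlim rfl

theorem exists_closed_pt (hunc : ¬ (univ : Set Ω).Countable)
    (hctb : ∀ a : Ω, (Iic a).Countable) (g : Ω → Ω) (γ : Ω) :
    ∃ δ, γ < δ ∧ Lim (univ : Set Ω) δ ∧ ∀ b < δ, g b < δ := by
  have hstep : ∀ x : Ω, ∃ y, x < y ∧ ∀ b ≤ x, g b < y := by
    intro x
    obtain ⟨y, hy⟩ := bdd hunc hctb (A := insert x (g '' Iic x))
      (((hctb x).image g).insert x)
    exact ⟨y, hy x (mem_insert _ _), fun γ hγ =>
      hy _ (mem_insert_of_mem _ (mem_image_of_mem g hγ))⟩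
  choose s hs hs' using hstep
  let x : ℕ → Ω := fun n => Nat.rec γ (fun _ y => s y) n
  have hmono : StrictMono x := strictMono_nat_of_lt_succ fun n => hs _
  obtain ⟨δ, hδ, hδ'⟩ := exists_sup hunc hctb x hmono
  refine ⟨δ, hδ 0, lim_sup x hδ hδ', fun b hb => ?_⟩
  obtain ⟨n, hn⟩ := hδ' b hb
  exact (hs' (x n) b hn.le).trans (hδ (n + 1))

theorem no_selector [Nonempty Ω] (hunc : ¬ (univ : Set Ω).Countable)
    (hctb : ∀ a : Ω, (Iic a).Countable) (U : KK Ω → Set (KK Ω))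
    (hU : IsCanonicalSelector U) : False := by
  classical
  obtain ⟨hclopen, hself, _, htrans, hcan⟩ := hU
  let x : Ω → KK Ω := fun b => P2 (b : WithTop Ω) ⊤ le_top
  have hx : ∀ b, x b = P2 (b : WithTop Ω) ⊤ le_top := fun b => rfl
  choose g hg using fun b : Ω => nbhd_g (hclopen (x b)).isOpen b (hself (x b))
  have hfex : ∀ b : Ω, ∃ f : Ω, Lim (univ : Set Ω) b → f < b ∧ ∀ b' : Ω, f < b' → b' ≤ b →
      x b' ∈ U (x b) := by
    intro b
    by_cases h : Lim (univ : Set Ω) b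
    · obtain ⟨f, h1, h2⟩ := nbhd_f (hclopen (x b)).isOpen b h.1 (hself (x b))
      exact ⟨f, fun _ => ⟨h1, h2⟩⟩
    · exact ⟨b, fun h' => absurd h' h⟩
  choose f hf using hfex
  obtain ⟨γ, hγ⟩ := press_omega hunc hctb f (fun b hb => (hf b hb).1)
  have claim1 : ∀ b, Lim (univ : Set Ω) b → f b = γ → ∀ b', γ < b' → b' ≤ b →
      x b' ∈ U (x b) := by
    intro b hb hfb b' h1 h2
    exact (hf b hb).2 b' (by rw [hfb]; exact h1) h2
  obtain ⟨δ, hγδ, hδlim, hδg⟩ := exists_closed_pt hunc hctb g γ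
  obtain ⟨b, hδb, hblim, hfb⟩ := hγ δ
  let yδ : KK Ω := P2 (δ : WithTop Ω) (δ : WithTop Ω) (le_refl _)
  -- Claim 2
  have claim2 : yδ ∈ U (x b) := by
    by_contra hcon
    obtain ⟨I, hI⟩ := basic (hclopen (x b)).compl.isOpen yδ hcon
    obtain ⟨fI, hfI, hfI'⟩ := exists_low I δ hδlim.1
    obtain ⟨b', _, hb'1, hb'2⟩ := hδlim.2 (max γ fI) (max_lt hγδ hfI)
    have hγb' : γ < b' := lt_of_le_of_lt (le_max_left _ _) hb'1
    have hfb' : fI < b' := lt_of_le_of_lt (le_max_right _ _) hb'1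
    obtain ⟨c, _, hc1, hc2⟩ := hδlim.2 (max (g b') b') (max_lt (hδg b' hb'2) hb'2)
    have hgc : g b' < c := lt_of_le_of_lt (le_max_left _ _) hc1
    have hbc : b' < c := lt_of_le_of_lt (le_max_right _ _) hc1
    have h1 : P2 (b' : WithTop Ω) (c : WithTop Ω) (WithTop.coe_le_coe.2 hbc.le) ∈ U (x b') :=
      hg b' c (WithTop.coe_le_coe.2 hbc.le) (WithTop.coe_lt_coe.2 hgc)
    have h2 := htrans (x b) (x b') (claim1 b hblim hfb b' hγb' (hb'2.le.trans hδb.le)) h1
    refine hI _ ?_ h2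
    rintro ⟨i, a⟩ hp
    rw [P2_val, P2_val]
    have key : ∀ e : Ω, fI < e → e < δ →
        (((e : WithTop Ω) ≤ (a : WithTop Ω)) ↔ ((δ : WithTop Ω) ≤ (a : WithTop Ω))) := by
      intro e he1 he2
      rw [WithTop.coe_le_coe, WithTop.coe_le_coe]
      constructor
      · intro h4
        by_contra h5
        exact absurd (he1.trans_le h4) (not_lt_of_ge (hfI' _ hp (not_le.1 h5)))
      · intro h4
        exact he2.le.trans h4
    fin_cases i
    · have h3 := key b' hfb' hb'2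
      simp only [cc]
      simpa using h3
    · have h3 := key c (hfb'.trans hbc) hc2
      simp only [cc]
      simpa using h3
    · rfl
    · rfl
  -- Claim 3
  obtain ⟨α, hα1, _, hα3⟩ := hcan (x b)
  have hxne : ∀ b b' : Ω, b < b' → x b ≠ x b' := by
    intro b b' hbb h
    have h1 : (x b).1.1 ⟨0, b⟩ = (x b').1.1 ⟨0, b⟩ := by rw [h]
    rw [hx, hx, P2_val, P2_val] at h1
    simp only [cc] at h1
    simp at h1
    exact absurd h1 (not_le_of_gt hbb)
  have claim3 : yδ ∈ cb (KK Ω) α := by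
    by_contra hcon
    obtain ⟨I, hI⟩ := basic (cb_closed (KK Ω) α).isOpen_compl yδ hcon
    obtain ⟨g0, hg0⟩ := exists_high I
    obtain ⟨b2, hb2, hb2lim, hfb2⟩ := hγ (max b g0)
    have hbb2 : b < b2 := lt_of_le_of_lt (le_max_left _ _) hb2
    have hgb2 : g0 < b2 := lt_of_le_of_lt (le_max_right _ _) hb2
    obtain ⟨α2, h1, _, h3⟩ := hcan (x b2)
    have h4 : x b ∈ U (x b2) := claim1 b2 hb2lim hfb2 b (hγδ.trans hδb) hbb2.le
    have h5 : x b ∉ cb (KK Ω) α2 := fun h => hxne b b2 hbb2 (h3 _ h4 h)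
    have h6 : α < α2 := by
      by_contra h
      exact h5 (cb_anti (not_lt.1 h) hα1)
    have h7 : x b2 ∈ cb (KK Ω) α := cb_anti h6.le h1
    have hoff : x b2 ∈ Off Ω := by
      refine ⟨b2, ?_⟩
      rw [hx, P2_val, P2_val]
      simp only [cc]
      simp
    have h8 := shift_cb δ α (x b2) hoff h7
    refine hI _ ?_ h8
    rintro ⟨i, a⟩ hp
    rw [show yδ = P2 (δ : WithTop Ω) (δ : WithTop Ω) (le_refl _) from rfl, P2_val]
    have h9 : ¬ b2 ≤ a := not_le_of_gt ((hg0 _ hp).trans_lt hgb2)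
    fin_cases i
    · simp [shift, cc]
    · simp [shift, cc]
    · have h10 : (x b2).1.1 ⟨0, a⟩ = false := by
        rw [hx, P2_val]
        simp only [cc]
        simpa using h9
      simp [shift, cc, h10]
    · have h10 : (x b2).1.1 ⟨1, a⟩ = false := by
        rw [hx, P2_val]
        simp only [cc]
        simp
      simp [shift, cc, h10]
  have h1 := hα3 yδ claim2 claim3
  have h2 : yδ.1.1 ⟨1, δ⟩ = (x b).1.1 ⟨1, δ⟩ := by rw [h1]
  rw [show yδ = P2 (δ : WithTop Ω) (δ : WithTop Ω) (le_refl _) from rfl, hx, P2_val, P2_val] at h2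
  simp only [cc] at h2
  simp at h2

end X198SK
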