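import Pool.Agent.X198.SK.Defs

open Set Filter Topology

namespace X198SK

open X198PR

universe u

variable {Ω : Type u} [LinearOrder Ω]

/-- The point of `FS(P)` with coordinates `[u₀,→), [u₁,→), [u₂,→), [u₃,→)` (`⊤` for `∅`). -/
def pt (u : Fin 4 → WithTop Ω) : FS (Pt Ω) :=
  ⟨fun p => decide (u p.idx ≤ (p.val : WithTop Ω)), by
    rintro x y ⟨h1, h2⟩ h3
    rw [decide_eq_true_eq] at h3 ⊢
    rw [← h1]
    exact h3.trans (WithTop.coe_le_coe.2 h2)⟩

/-- The closed set `K`. -/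
def KK (Ω : Type u) [LinearOrder Ω] : Set (FS (Pt Ω)) :=
  {F | (∀ a, F.1 ⟨1, a⟩ = true → F.1 ⟨0, a⟩ = true) ∧
    (∀ a, F.1 ⟨3, a⟩ = true → F.1 ⟨2, a⟩ = true) ∧
    ((∀ a, F.1 ⟨0, a⟩ = F.1 ⟨1, a⟩) ∨ (∀ a, F.1 ⟨2, a⟩ = false))}

theorem continuous_eval (p : Pt Ω) : Continuous (fun F : FS (Pt Ω) => F.1 p) :=
  (continuous_apply p).comp continuous_subtype_val

theorem KK_closed : IsClosed (KK Ω) := by
  have h1 : KK Ω = (⋂ a, {F : FS (Pt Ω) | F.1 ⟨1, a⟩ = true → F.1 ⟨0, a⟩ = true}) ∩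
      ((⋂ a, {F : FS (Pt Ω) | F.1 ⟨3, a⟩ = true → F.1 ⟨2, a⟩ = true}) ∩
      ((⋂ a, {F : FS (Pt Ω) | F.1 ⟨0, a⟩ = F.1 ⟨1, a⟩}) ∪
        (⋂ a, {F : FS (Pt Ω) | F.1 ⟨2, a⟩ = false}))) := by
    ext F
    simp only [KK, mem_setOf_eq, mem_inter_iff, mem_iInter, mem_union]
  rw [h1]
  have himp : ∀ p q : Pt Ω, IsClosed {F : FS (Pt Ω) | F.1 p = true → F.1 q = true} := by
    intro p q
    have : {F : FS (Pt Ω) | F.1 p = true → F.1 q = true} =
        (fun F : FS (Pt Ω) => (F.1 p, F.1 q)) ⁻¹' {x | x.1 = true → x.2 = true} := rfl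
    rw [this]
    exact (isClosed_discrete _).preimage ((continuous_eval p).prodMk (continuous_eval q))
  refine (isClosed_iInter fun a => himp _ _).inter ((isClosed_iInter fun a => himp _ _).inter
    ((isClosed_iInter fun a => isClosed_eq (continuous_eval _) (continuous_eval _)).union
      (isClosed_iInter fun a => isClosed_eq (continuous_eval _) continuous_const)))

/-- Admissible coordinates. -/
def Ok (u : Fin 4 → WithTop Ω) : Prop := u 0 ≤ u 1 ∧ u 2 ≤ u 3 ∧ (u 0 = u 1 ∨ u 2 = ⊤)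

theorem pt_mem {u : Fin 4 → WithTop Ω} (h : Ok u) : pt u ∈ KK Ω := by
  obtain ⟨h1, h2, h3⟩ := h
  refine ⟨fun a ha => ?_, fun a ha => ?_, ?_⟩
  · simp only [pt, decide_eq_true_eq] at ha ⊢
    exact h1.trans ha
  · simp only [pt, decide_eq_true_eq] at ha ⊢
    exact h2.trans ha
  · rcases h3 with h3 | h3
    · left
      intro a
      simp only [pt, h3]
    · right
      intro a
      simp only [pt, h3, decide_eq_false_iff_not]
      simp

/-- The point of `K` with given coordinates. -/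
def kpt (u : Fin 4 → WithTop Ω) (h : Ok u) : KK Ω := ⟨pt u, pt_mem h⟩

/-- Basic neighbourhoods. -/
theorem basic {O : Set (KK Ω)} (hO : IsOpen O) (F : KK Ω) (hF : F ∈ O) :
    ∃ I : Finset (Pt Ω), ∀ F' : KK Ω, (∀ p ∈ I, F'.1.1 p = F.1.1 p) → F' ∈ O := by
  obtain ⟨O1, hO1, rfl⟩ := isOpen_induced_iff.1 hO
  obtain ⟨O2, hO2, rfl⟩ := isOpen_induced_iff.1 hO1
  obtain ⟨I, W, hW, hWO⟩ := (isOpen_pi_iff.1 hO2) F.1.1 hF
  refine ⟨I, fun F' h => hWO ?_⟩
  intro p hp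
  rw [h p hp]
  exact (hW p hp).2

theorem exists_low [Nonempty Ω] (I : Finset (Pt Ω)) (b : Ω) (hb : ∃ x, x < b) :
    ∃ f < b, ∀ p ∈ I, p.val < b → p.val ≤ f := by
  classical
  induction I using Finset.induction_on with
  | empty =>
    obtain ⟨x, hx⟩ := hb
    exact ⟨x, hx, by simp⟩
  | insert p I _ ih =>
    obtain ⟨f, hf, hfI⟩ := ih
    by_cases h : p.val < b
    · refine ⟨max f p.val, max_lt hf h, fun q hq hqb => ?_⟩
      rcases Finset.mem_insert.1 hq with rfl | hq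
      · exact le_max_right _ _
      · exact (hfI q hq hqb).trans (le_max_left _ _)
    · refine ⟨f, hf, fun q hq hqb => ?_⟩
      rcases Finset.mem_insert.1 hq with rfl | hq
      · exact absurd hqb h
      · exact hfI q hq hqb

theorem exists_high [Nonempty Ω] (I : Finset (Pt Ω)) : ∃ g : Ω, ∀ p ∈ I, p.val ≤ g := by
  classical
  induction I using Finset.induction_on with
  | empty =>
    obtain ⟨x⟩ := (inferInstance : Nonempty Ω)
    exact ⟨x, by simp⟩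
  | insert p I _ ih =>
    obtain ⟨g, hg⟩ := ih
    refine ⟨max g p.val, fun q hq => ?_⟩
    rcases Finset.mem_insert.1 hq with rfl | hq
    · exact le_max_right _ _
    · exact (hg q hq).trans (le_max_left _ _)

/-- Coordinates `(b, c, ⊤, ⊤)`. -/
def cc (b c : WithTop Ω) : Fin 4 → WithTop Ω := ![b, c, ⊤, ⊤]

theorem ok_cc {b c : WithTop Ω} (h : b ≤ c) : Ok (cc b c) := by
  refine ⟨h, le_refl _, Or.inr rfl⟩

/-- The point with coordinates `(b, c, ⊤, ⊤)`. -/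
def P2 (b c : WithTop Ω) (h : b ≤ c) : KK Ω := kpt (cc b c) (ok_cc h)

theorem P2_val (b c : WithTop Ω) (h : b ≤ c) (i : Fin 4) (a : Ω) :
    (P2 b c h).1.1 ⟨i, a⟩ = decide (cc b c i ≤ (a : WithTop Ω)) := rfl

theorem nbhd_g [Nonempty Ω] {O : Set (KK Ω)} (hO : IsOpen O) (b : Ω)
    (hb : P2 (b : WithTop Ω) ⊤ le_top ∈ O) :
    ∃ g : Ω, ∀ (c : WithTop Ω) (h : (b : WithTop Ω) ≤ c), (g : WithTop Ω) < c →
      P2 (b : WithTop Ω) c h ∈ O := by
  obtain ⟨I, hI⟩ := basic hO _ hb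
  obtain ⟨g, hg⟩ := exists_high I
  refine ⟨g, fun c h hgc => hI _ ?_⟩
  rintro ⟨i, a⟩ hp
  rw [P2_val, P2_val]
  fin_cases i
  · rfl
  · have h1 : ¬ c ≤ (a : WithTop Ω) := by
      intro h2
      exact absurd (hgc.trans_le h2) (not_lt_of_ge (WithTop.coe_le_coe.2 (hg _ hp)))
    simp only [cc]
    simp [h1]
  · rfl
  · rfl

theorem nbhd_f [Nonempty Ω] {O : Set (KK Ω)} (hO : IsOpen O) (b : Ω) (hb0 : ∃ x, x < b)
    (hb : P2 (b : WithTop Ω) ⊤ le_top ∈ O) :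
    ∃ f < b, ∀ b' : Ω, f < b' → b' ≤ b → P2 (b' : WithTop Ω) ⊤ le_top ∈ O := by
  obtain ⟨I, hI⟩ := basic hO _ hb
  obtain ⟨f, hf, hfI⟩ := exists_low I b hb0
  refine ⟨f, hf, fun b' h1 h2 => hI _ ?_⟩
  rintro ⟨i, a⟩ hp
  rw [P2_val, P2_val]
  fin_cases i
  · have h3 : ((b' : WithTop Ω) ≤ (a : WithTop Ω)) ↔ ((b : WithTop Ω) ≤ (a : WithTop Ω)) := by
      rw [WithTop.coe_le_coe, WithTop.coe_le_coe]
      constructor
      · intro h4
        by_contra h5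
        exact absurd (h1.trans_le h4) (not_lt_of_ge (hfI _ hp (not_le.1 h5)))
      · intro h4
        exact h2.trans h4
    simp only [cc]
    simpa using h3
  · rfl
  · rfl
  · rfl

/-- The shift `(A, B, C, D) ↦ ([δ,→), [δ,→), A, B)`. -/
def shift (δ : Ω) (F : KK Ω) : KK Ω :=
  ⟨⟨fun p => if p.idx = 0 ∨ p.idx = 1 then decide (δ ≤ p.val) else
      if p.idx = 2 then F.1.1 ⟨0, p.val⟩ else F.1.1 ⟨1, p.val⟩, by
    rintro ⟨i, x⟩ ⟨j, y⟩ ⟨h1, h2⟩ h3
    simp only at h1 h2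
    subst h1
    simp only at h3 ⊢
    split_ifs at h3 ⊢ with h4 h5
    · rw [decide_eq_true_eq] at h3 ⊢
      exact h3.trans h2
    · exact F.1.2 ⟨0, x⟩ ⟨0, y⟩ ⟨rfl, h2⟩ h3
    · exact F.1.2 ⟨1, x⟩ ⟨1, y⟩ ⟨rfl, h2⟩ h3⟩, by
    refine ⟨fun a ha => ?_, fun a ha => ?_, Or.inl fun a => ?_⟩
    · simpa using ha
    · have h1 : F.1.1 ⟨1, a⟩ = true := by simpa using ha
      simpa using F.2.1 a h1
    · simp⟩

theorem shift_continuous (δ : Ω) : Continuous (shift δ) := by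
  refine Continuous.subtype_mk (Continuous.subtype_mk (continuous_pi fun p => ?_) _) _
  by_cases h1 : p.idx = 0 ∨ p.idx = 1
  · simp only [if_pos h1]
    exact continuous_const
  · simp only [if_neg h1]
    by_cases h2 : p.idx = 2
    · simp only [if_pos h2]
      exact (continuous_eval _).comp continuous_subtype_val
    · simp only [if_neg h2]
      exact (continuous_eval _).comp continuous_subtype_val

/-- The part of `K` off the diagonal. -/
def Off (Ω : Type u) [LinearOrder Ω] : Set (KK Ω) := {F | ∃ a, F.1.1 ⟨0, a⟩ ≠ F.1.1 ⟨1, a⟩}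

theorem off_open : IsOpen (Off Ω) := by
  have h1 : Off Ω = ⋃ a, {F : KK Ω | F.1.1 ⟨0, a⟩ = F.1.1 ⟨1, a⟩}ᶜ := by
    ext F
    simp [Off]
  rw [h1]
  refine isOpen_iUnion fun a => (isClosed_eq ?_ ?_).isOpen_compl
  · exact (continuous_eval _).comp continuous_subtype_val
  · exact (continuous_eval _).comp continuous_subtype_val

theorem off_zero {F : KK Ω} (hF : F ∈ Off Ω) : (∀ a, F.1.1 ⟨2, a⟩ = false) ∧
    ∀ a, F.1.1 ⟨3, a⟩ = false := by
  obtain ⟨a0, ha0⟩ := hF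
  have h1 : ∀ a, F.1.1 ⟨2, a⟩ = false := by
    rcases F.2.2.2 with h | h
    · exact absurd (h a0) ha0
    · exact h
  refine ⟨h1, fun a => ?_⟩
  by_contra h2
  have h3 := F.2.2.1 a (by simpa using h2)
  rw [h1 a] at h3
  exact absurd h3 (by simp)

theorem shift_inj (δ : Ω) {F G : KK Ω} (hF : F ∈ Off Ω) (hG : G ∈ Off Ω)
    (h : shift δ F = shift δ G) : F = G := by
  have h0 : ∀ p, (shift δ F).1.1 p = (shift δ G).1.1 p := by
    intro p
    rw [h]
  apply Subtype.ext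
  apply Subtype.ext
  funext p
  obtain ⟨i, a⟩ := p
  fin_cases i
  · have := h0 ⟨2, a⟩
    simpa [shift] using this
  · have := h0 ⟨3, a⟩
    simpa [shift] using this
  · exact ((off_zero hF).1 a).trans ((off_zero hG).1 a).symm
  · exact ((off_zero hF).2 a).trans ((off_zero hG).2 a).symm

theorem shift_cb (δ : Ω) (α : Ordinal.{u}) :
    ∀ F : KK Ω, F ∈ Off Ω → F ∈ cb (KK Ω) α → shift δ F ∈ cb (KK Ω) α := by
  induction α using WellFoundedLT.induction with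
  | _ α ih =>
    intro F hFo hF
    rw [cb_def] at hF ⊢
    intro β hβ
    obtain ⟨h1, h2⟩ := hF β hβ
    refine ⟨ih β hβ F hFo h1, fun O hO hFO => ?_⟩
    obtain ⟨F', ⟨hF'1, hF'2⟩, hF'3, hne⟩ := h2 (shift δ ⁻¹' O ∩ Off Ω)
      ((hO.preimage (shift_continuous δ)).inter off_open) ⟨hFO, hFo⟩
    exact ⟨shift δ F', hF'1, ih β hβ F' hF'2 hF'3, fun h => hne (shift_inj δ hF'2 hFo h)⟩

end X198SK
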